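import Mathlib

/-!
# Fields in which no new natural number is a square: the absolute Galois group is not topologically finitely generated
-/

set_option autoImplicit false

namespace Pool.Agent.Q284.PAC

/-- the elements fixed by a set of automorphisms with dense generated subgroup are in the base field -/
theorem fixed_of_dense (K : Type) [Field K] (S : Set (SeparableClosure K ≃ₐ[K] SeparableClosure K))
    (hS : (Subgroup.closure S).topologicalClosure = ⊤) (w : SeparableClosure K) (hw : ∀ σ ∈ S, σ w = w) :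
    ∃ d : K, algebraMap K (SeparableClosure K) d = w := by
  let E : IntermediateField K (SeparableClosure K) := IntermediateField.adjoin K {w}
  have h0 : ∀ σ : SeparableClosure K ≃ₐ[K] SeparableClosure K, σ w = w → σ ∈ E.fixingSubgroup := by
    intro σ hσ
    rw [IntermediateField.mem_fixingSubgroup_iff]
    intro x hx
    have h3 : E ≤ IntermediateField.fixedField (Subgroup.zpowers σ) := by
      refine IntermediateField.adjoin_le_iff.2 ?_
      rintro y hy
      rw [Set.mem_singleton_iff] at hy
      subst hy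
      rw [SetLike.mem_coe, IntermediateField.mem_fixedField_iff]
      intro g hg
      have h4 : Subgroup.zpowers σ ≤ MulAction.stabilizer (SeparableClosure K ≃ₐ[K] SeparableClosure K) y :=
        (Subgroup.zpowers_le).2 hσ
      exact h4 hg
    have h5 := h3 hx
    rw [IntermediateField.mem_fixedField_iff] at h5
    exact h5 σ (Subgroup.mem_zpowers σ)
  have h2 : (Subgroup.closure S).topologicalClosure ≤ E.fixingSubgroup :=
    Subgroup.topologicalClosure_minimal _ ((Subgroup.closure_le _).2 fun σ hσ => h0 σ (hw σ hσ))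
      (InfiniteGalois.fixingSubgroup_isClosed E)
  have h3 : w ∈ (⊥ : IntermediateField K (SeparableClosure K)) := by
    rw [InfiniteGalois.mem_bot_iff_fixed]
    intro g
    have h4 : g ∈ E.fixingSubgroup := h2 (by rw [hS]; trivial)
    rw [IntermediateField.mem_fixingSubgroup_iff] at h4
    exact h4 w (IntermediateField.mem_adjoin_simple_self K w)
  rw [IntermediateField.mem_bot] at h3
  exact h3

/-- products of different sets of primes are independent modulo squares -/
theorem not_square_primes {n : ℕ} (T₁ T₂ : Finset (Fin n)) (h : T₁ ≠ T₂) :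
    ¬ IsSquare ((∏ i ∈ T₁, Nat.nth Nat.Prime i) * ∏ i ∈ T₂, Nat.nth Nat.Prime i) := by
  classical
  rintro ⟨r, hr⟩
  obtain ⟨i₀, hi₀⟩ : ∃ i, ¬ (i ∈ T₁ ↔ i ∈ T₂) := by
    by_contra hcon
    push Not at hcon
    exact h (Finset.ext hcon)
  have hpos : ∀ i : Fin n, Nat.nth Nat.Prime i ≠ 0 := fun i => (Nat.prime_nth_prime i).ne_zero
  have hinj : ∀ i j : Fin n, Nat.nth Nat.Prime i = Nat.nth Nat.Prime j → i = j := fun i j hij =>
    Fin.ext (Nat.nth_injective Nat.infinite_setOfPred_prime hij)
  have hprod : ∀ T : Finset (Fin n), (∏ i ∈ T, Nat.nth Nat.Prime i) ≠ 0 := fun T =>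
    Finset.prod_ne_zero_iff.2 fun i _ => hpos i
  have hv : ∀ T : Finset (Fin n), (∏ i ∈ T, Nat.nth Nat.Prime i).factorization (Nat.nth Nat.Prime i₀) =
      if i₀ ∈ T then 1 else 0 := by
    intro T
    rw [Nat.factorization_prod (fun i _ => hpos i), Finsupp.finsetSum_apply, ← Finset.sum_ite_eq T i₀ (fun _ => 1)]
    refine Finset.sum_congr rfl fun i _ => ?_
    rw [(Nat.prime_nth_prime i).factorization, Finsupp.single_apply]
    by_cases hi : i₀ = i
    · rw [if_pos hi, if_pos (by rw [hi])]
    · rw [if_neg hi, if_neg (fun h' => hi (hinj _ _ h').symm)]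
  have h1 : ((∏ i ∈ T₁, Nat.nth Nat.Prime i) * ∏ i ∈ T₂, Nat.nth Nat.Prime i).factorization (Nat.nth Nat.Prime i₀) =
      (r * r).factorization (Nat.nth Nat.Prime i₀) := by rw [hr]
  have hr0 : r ≠ 0 := by
    rintro rfl
    rw [mul_zero] at hr
    exact (mul_ne_zero (hprod T₁) (hprod T₂)) hr
  rw [Nat.factorization_mul (hprod T₁) (hprod T₂), Nat.factorization_mul hr0 hr0, Finsupp.add_apply, Finsupp.add_apply,
    hv, hv] at h1
  by_cases ha : i₀ ∈ T₁ <;> by_cases hb : i₀ ∈ T₂
  · exact hi₀ ⟨fun _ => hb, fun _ => ha⟩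
  · rw [if_pos ha, if_neg hb] at h1
    omega
  · rw [if_neg ha, if_pos hb] at h1
    omega
  · exact hi₀ ⟨fun h' => absurd h' ha, fun h' => absurd h' hb⟩

theorem not_fg (K : Type) [Field K] [CharZero K] (h : ∀ n : ℕ, IsSquare (n : K) → IsSquare n)
    (S : Finset (SeparableClosure K ≃ₐ[K] SeparableClosure K)) :
    (Subgroup.closure (S : Set (SeparableClosure K ≃ₐ[K] SeparableClosure K))).topologicalClosure ≠ ⊤ := by
  classical
  intro hS
  have : CharZero (SeparableClosure K) := charZero_of_injective_algebraMap (algebraMap K (SeparableClosure K)).injective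
  have hu : ∀ i : Fin (S.card + 1), ∃ u : SeparableClosure K, u ^ 2 = (Nat.nth Nat.Prime i : SeparableClosure K) := fun i =>
    IsSepClosed.exists_pow_nat_eq _ 2
  choose u hu using hu
  let w : Finset (Fin (S.card + 1)) → SeparableClosure K := fun T => ∏ i ∈ T, u i
  have hw : ∀ T, w T ^ 2 = ((∏ i ∈ T, Nat.nth Nat.Prime i : ℕ) : SeparableClosure K) := by
    intro T
    simp only [w]
    rw [← Finset.prod_pow, Nat.cast_prod]
    exact Finset.prod_congr rfl fun i _ => hu i
  have hsign : ∀ (σ : SeparableClosure K ≃ₐ[K] SeparableClosure K) T, σ (w T) = w T ∨ σ (w T) = - w T := by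
    intro σ T
    have h1 : (σ (w T)) ^ 2 = w T ^ 2 := by rw [← map_pow, hw, map_natCast]
    exact sq_eq_sq_iff_eq_or_eq_neg.1 h1
  let χ : Finset (Fin (S.card + 1)) → (S → Bool) := fun T σ => decide (σ.1 (w T) = w T)
  have hcard : Fintype.card (S → Bool) < Fintype.card (Finset (Fin (S.card + 1))) := by
    rw [Fintype.card_fun, Fintype.card_finset, Fintype.card_bool, Fintype.card_fin, Fintype.card_coe]
    exact Nat.pow_lt_pow_right (by norm_num) (Nat.lt_succ_self _)
  obtain ⟨T₁, T₂, hT, hχ⟩ := Fintype.exists_ne_map_eq_of_card_lt χ hcard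
  have hfix : ∀ σ ∈ (S : Set (SeparableClosure K ≃ₐ[K] SeparableClosure K)), σ (w T₁ * w T₂) = w T₁ * w T₂ := by
    intro σ hσ
    have h1 : decide (σ (w T₁) = w T₁) = decide (σ (w T₂) = w T₂) := congrFun hχ ⟨σ, hσ⟩
    rw [decide_eq_decide] at h1
    rw [map_mul]
    rcases hsign σ (T₁) with h2 | h2
    · rw [h2, h1.1 h2]
    · rcases hsign σ T₂ with h3 | h3
      · rw [h3, h1.2 h3]
      · rw [h2, h3, neg_mul_neg]
  obtain ⟨d, hd⟩ := fixed_of_dense K _ hS _ hfix
  apply not_square_primes T₁ T₂ hT
  apply h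
  refine ⟨d, ?_⟩
  apply (algebraMap K (SeparableClosure K)).injective
  rw [map_mul, hd, map_natCast, Nat.cast_mul, ← hw, ← hw]
  ring

end Pool.Agent.Q284.PAC
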