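import Pool.Agent.Q284.PAC.Step

/-!
# Rational points over existentially closed good fields: the algebra
-/

set_option autoImplicit false

namespace Pool.Agent.Q284.PAC

open scoped TensorProduct

theorem isDomain_of_tensor (K : Type) [Field K] (A : Type) [CommRing A] [Algebra K A]
    [IsDomain (A ⊗[K] AlgebraicClosure K)] : IsDomain A := by
  have h1 : Function.Injective (Algebra.TensorProduct.includeLeft : A →ₐ[K] A ⊗[K] AlgebraicClosure K) :=
    Algebra.TensorProduct.includeLeft_injective (FaithfulSMul.algebraMap_injective K (AlgebraicClosure K))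
  exact h1.isDomain (Algebra.TensorProduct.includeLeft : A →ₐ[K] A ⊗[K] AlgebraicClosure K).toRingHom

/-- a polynomial over `K` without roots in `K` has no roots in the function field -/
theorem noroot_frac (K : Type) [Field K] (A : Type) [CommRing A] [Algebra K A] [IsDomain A]
    [IsDomain (A ⊗[K] AlgebraicClosure K)] (q : Polynomial K) (hq : ∀ x : K, q.eval x ≠ 0) (x : FractionRing A) :
    q.eval₂ ((algebraMap A (FractionRing A)).comp (algebraMap K A)) x ≠ 0 := by
  intro hx
  have hq0 : q ≠ 0 := by
    rintro rfl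
    exact hq 0 Polynomial.eval_zero
  obtain ⟨u, v, hv, rfl⟩ := IsFractionRing.div_surjective (A := A) x
  have hv0 : v ≠ 0 := nonZeroDivisors.ne_zero hv
  let B : Type := A ⊗[K] AlgebraicClosure K
  let Ω : Type := FractionRing B
  let α : A →+* Ω := (algebraMap B Ω).comp (Algebra.TensorProduct.includeLeft : A →ₐ[K] B).toRingHom
  let β : AlgebraicClosure K →+* Ω := (algebraMap B Ω).comp (Algebra.TensorProduct.includeRight : AlgebraicClosure K →ₐ[K] B).toRingHom
  have hinjB : Function.Injective (algebraMap B Ω) := FaithfulSMul.algebraMap_injective B Ω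
  have hleft : Function.Injective (Algebra.TensorProduct.includeLeft : A →ₐ[K] A ⊗[K] AlgebraicClosure K) :=
    Algebra.TensorProduct.includeLeft_injective (FaithfulSMul.algebraMap_injective K (AlgebraicClosure K))
  have hα : Function.Injective α := hinjB.comp hleft
  have hαβ : α.comp (algebraMap K A) = β.comp (algebraMap K (AlgebraicClosure K)) := by
    ext z
    exact congrArg (algebraMap B Ω) (Algebra.TensorProduct.tmul_one_eq_one_tmul z)
  let γ : FractionRing A →+* Ω := IsFractionRing.lift hα
  have hγ : ∀ w : A, γ (algebraMap A (FractionRing A) w) = α w := fun w => IsFractionRing.lift_algebraMap hα w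
  let y : Ω := γ (algebraMap A (FractionRing A) u / algebraMap A (FractionRing A) v)
  have hy : y = α u / α v := by
    simp only [y]
    rw [map_div₀, hγ, hγ]
  have h1 : (q.map (algebraMap K (AlgebraicClosure K))).eval₂ β y = 0 := by
    rw [Polynomial.eval₂_map, ← hαβ]
    have h2 : γ.comp ((algebraMap A (FractionRing A)).comp (algebraMap K A)) = α.comp (algebraMap K A) := by
      ext z
      exact hγ _
    rw [← h2, ← Polynomial.hom_eval₂, hx, map_zero]
  obtain ⟨r, hr⟩ : ∃ r : AlgebraicClosure K, β r = y := by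
    let algβ : Algebra (AlgebraicClosure K) Ω := β.toAlgebra
    have hint : IsIntegral (AlgebraicClosure K) y := by
      rw [← isAlgebraic_iff_isIntegral]
      refine ⟨q.map (algebraMap K (AlgebraicClosure K)), ?_, h1⟩
      rw [Ne, Polynomial.map_eq_zero]
      exact hq0
    have hdeg : (minpoly (AlgebraicClosure K) y).degree = 1 :=
      IsAlgClosed.degree_eq_one_of_irreducible (AlgebraicClosure K) (minpoly.irreducible hint)
    obtain ⟨r, hr⟩ := minpoly.mem_range_of_degree_eq_one (AlgebraicClosure K) y hdeg
    exact ⟨r, hr⟩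
  have hr0 : (q.map (algebraMap K (AlgebraicClosure K))).eval r = 0 := by
    apply β.injective
    rw [map_zero, ← h1, ← hr, Polynomial.eval₂_at_apply]
  have huv : u ⊗ₜ[K] (1 : AlgebraicClosure K) = v ⊗ₜ[K] r := by
    apply hinjB
    have hv2 : α v ≠ 0 := by
      rw [Ne, map_eq_zero_iff α hα]
      exact hv0
    have h3 : α u = α v * β r := by
      rw [hr, hy, mul_comm]
      exact (div_mul_cancel₀ _ hv2).symm
    have h4 : α v * β r = algebraMap B Ω (v ⊗ₜ[K] r) := by
      change algebraMap B Ω (v ⊗ₜ[K] 1) * algebraMap B Ω (1 ⊗ₜ[K] r) = _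
      rw [← map_mul, Algebra.TensorProduct.tmul_mul_tmul, mul_one, one_mul]
    rw [← h4, ← h3]
    rfl
  by_cases hr1 : r ∈ Submodule.span K ({1} : Set (AlgebraicClosure K))
  · obtain ⟨d, hd⟩ := Submodule.mem_span_singleton.1 hr1
    apply hq d
    apply (algebraMap K (AlgebraicClosure K)).injective
    rw [← Algebra.algebraMap_eq_smul_one] at hd
    rw [map_zero, ← hr0, ← hd, Polynomial.eval_map, Polynomial.eval₂_at_apply]
  · obtain ⟨l, hl, hl1⟩ := Submodule.exists_le_ker_of_notMem hr1
    have hl2 : l 1 = 0 := hl1 (Submodule.mem_span_singleton_self 1)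
    let Φ : A ⊗[K] AlgebraicClosure K →ₗ[K] A := (TensorProduct.rid K A).toLinearMap ∘ₗ LinearMap.lTensor A l
    have hΦ : ∀ (w : A) (z : AlgebraicClosure K), Φ (w ⊗ₜ z) = l z • w := by
      intro w z
      simp [Φ]
    have h6 := congrArg Φ huv
    rw [hΦ, hΦ, hl2, zero_smul] at h6
    rcases smul_eq_zero.1 h6.symm with h7 | h7
    · exact hl h7
    · exact hv0 h7

/-- points of affine varieties -/
theorem exists_algHom {k : Type} [Field k] (P : Set (Polynomial k)) (K : Type) [Field K] (c : k →+* K) (h : Good P c)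
    (hec : ∀ (M : Type) (_ : Field M) (g : K →+* M), Good P (g.comp c) → ∀ s : Sys K, Sol g s → Sol (RingHom.id K) s)
    (A : Type) [CommRing A] [Algebra K A] [Algebra.FiniteType K A] [IsDomain (A ⊗[K] AlgebraicClosure K)] :
    Nonempty (A →ₐ[K] K) := by
  classical
  have : IsDomain A := isDomain_of_tensor K A
  let g : K →+* FractionRing A := (algebraMap A (FractionRing A)).comp (algebraMap K A)
  have hg : Good P (g.comp c) := by
    intro p hp x hx
    have h1 := noroot_frac K A (p.map c) (fun z hz => h p hp z (by rwa [Polynomial.eval_map] at hz)) x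
    apply h1
    rw [Polynomial.eval₂_map]
    exact hx
  obtain ⟨n, π, hπ⟩ := Algebra.FiniteType.iff_quotient_mvPolynomial''.1 (inferInstance : Algebra.FiniteType K A)
  obtain ⟨S, hS⟩ := (isNoetherianRing_iff_ideal_fg (MvPolynomial (Fin n) K)).1 inferInstance (RingHom.ker π.toRingHom)
  have hsol : Sol g (⟨n, S⟩ : Sys K) := by
    refine ⟨fun i => algebraMap A (FractionRing A) (π (MvPolynomial.X i)), fun p hp => ?_⟩
    have h1 : π p = 0 := by
      have h2 : p ∈ RingHom.ker π.toRingHom := by
        rw [← hS]
        exact Ideal.subset_span hp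
      exact h2
    have h3 : p.eval₂ (algebraMap K A) (fun i => π (MvPolynomial.X i)) = π p := by
      have h4 := MvPolynomial.aeval_unique π
      conv_rhs => rw [h4, MvPolynomial.aeval_def]
      rfl
    have h5 := MvPolynomial.eval₂_comp_left (algebraMap A (FractionRing A)) (algebraMap K A)
      (fun i => π (MvPolynomial.X i)) p
    rw [h3, h1, map_zero] at h5
    exact h5.symm
  obtain ⟨x, hx⟩ := hec _ _ g hg _ hsol
  let ψ : MvPolynomial (Fin n) K →ₐ[K] K := MvPolynomial.aeval x
  have hψ : ∀ p, π p = 0 → ψ p = 0 := by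
    intro p hp
    have h1 : p ∈ Ideal.span (S : Set (MvPolynomial (Fin n) K)) := by
      have h2 : p ∈ RingHom.ker π.toRingHom := hp
      rw [← hS] at h2
      exact h2
    have h2 : Ideal.span (S : Set (MvPolynomial (Fin n) K)) ≤ RingHom.ker ψ.toRingHom := by
      refine Ideal.span_le.2 fun q hq => ?_
      exact hx q hq
    exact h2 h1
  exact ⟨AlgHom.liftOfSurjective π hπ ψ hψ⟩

end Pool.Agent.Q284.PAC
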