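import Pool.Agent.Q284.PAC.Tower
import Pool.Agent.Q284.PAC.Pt

/-!
# Existentially closed good fields: every geometrically integral scheme locally of finite type has a rational point
-/

set_option autoImplicit false

namespace Pool.Agent.Q284.PAC

open CategoryTheory Limits AlgebraicGeometry
open scoped TensorProduct

theorem exists_section {k : Type} [Field k] (P : Set (Polynomial k)) (K : Type) [Field K] (c : k →+* K) (h : Good P c)
    (hec : ∀ (M : Type) (_ : Field M) (g : K →+* M), Good P (g.comp c) → ∀ s : Sys K, Sol g s → Sol (RingHom.id K) s)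
    (X : Scheme.{0}) (f : X ⟶ Spec (.of K)) [GeometricallyIntegral f] [LocallyOfFiniteType f] :
    ∃ s : Spec (.of K) ⟶ X, s ≫ f = 𝟙 _ := by
  -- an affine open subscheme
  obtain ⟨x, -⟩ := f.surjective (IsLocalRing.closedPoint K)
  obtain ⟨i, y, -⟩ := X.affineCover.exists_eq x
  obtain ⟨R, e⟩ : ∃ R : CommRingCat.{0}, Nonempty (X.affineCover.X i ≅ Spec R) := ⟨_, ⟨(X.affineCover.X i).isoSpec⟩⟩
  obtain ⟨e⟩ := e
  let j : Spec R ⟶ X := e.inv ≫ X.affineCover.f i
  have hj : IsOpenImmersion j := inferInstance
  obtain ⟨φ, hφ⟩ := Spec.map_surjective (j ≫ f)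
  have hft : RingHom.FiniteType φ.hom := by
    have h1 : LocallyOfFiniteType (Spec.map φ) := by
      rw [hφ]
      infer_instance
    exact (HasRingHomProperty.Spec_iff (P := @LocallyOfFiniteType)).1 h1
  let A : Type := R
  let algA : Algebra K A := φ.hom.toAlgebra
  have hfA : Algebra.FiniteType K A := hft
  have hφA : Spec.map (CommRingCat.ofHom (algebraMap K A)) = j ≫ f := hφ
  -- it is geometrically integral
  let g : Spec (.of (AlgebraicClosure K)) ⟶ Spec (.of K) := Spec.map (CommRingCat.ofHom (algebraMap K (AlgebraicClosure K)))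
  have h1 : IsIntegral (pullback f g) :=
    pullback_of_geometrically GeometricallyIntegral.geometrically_isIntegral (AlgebraicClosure K) g
  have hne : Nonempty (Spec R) := ⟨e.hom y⟩
  have hA : Nontrivial A := by
    obtain ⟨p⟩ := hne
    exact PrimeSpectrum.nontrivial p
  have hinj : Function.Injective (Algebra.TensorProduct.includeLeft : A →ₐ[K] A ⊗[K] AlgebraicClosure K) :=
    Algebra.TensorProduct.includeLeft_injective (FaithfulSMul.algebraMap_injective K (AlgebraicClosure K))
  have hT : Nontrivial (A ⊗[K] AlgebraicClosure K) := hinj.nontrivial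
  have e1 : pullback j (pullback.fst f g) ≅ Spec (.of (A ⊗[K] AlgebraicClosure K)) :=
    pullbackRightPullbackFstIso f g j ≪≫ (pullback.congrHom hφA.symm rfl) ≪≫ pullbackSpecIso K A (AlgebraicClosure K)
  have h2 : Nonempty (pullback j (pullback.fst f g) : Scheme.{0}) := by
    obtain ⟨p⟩ := (inferInstance : Nonempty (PrimeSpectrum (A ⊗[K] AlgebraicClosure K)))
    exact ⟨e1.inv p⟩
  have h3 : IsIntegral (pullback j (pullback.fst f g)) :=
    isIntegral_of_isOpenImmersion (pullback.snd j (pullback.fst f g))
  have h4 : IsIntegral (Spec (.of (A ⊗[K] AlgebraicClosure K))) := IsIntegral.of_isIso e1.hom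
  have h5 : IsDomain (A ⊗[K] AlgebraicClosure K) := (affine_isIntegral_iff _).1 h4
  obtain ⟨ψ⟩ := exists_algHom P K c h hec A
  refine ⟨Spec.map (CommRingCat.ofHom ψ.toRingHom) ≫ j, ?_⟩
  rw [Category.assoc, ← hφA, ← Spec.map_comp, ← CommRingCat.ofHom_comp]
  have h6 : ψ.toRingHom.comp (algebraMap K A) = RingHom.id K := ψ.comp_algebraMap
  rw [h6]
  exact Spec.map_id _

/-- every field `k` is algebraically closed in a field over which every geometrically integral scheme locally of finite type has a
rational point -/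
theorem exists_regular (k : Type) [Field k] :
    ∃ (K : Type) (_ : Field K) (_ : Algebra k K), (∀ x : K, IsAlgebraic k x → x ∈ Set.range (algebraMap k K)) ∧
      ∀ (X : Scheme.{0}) (f : X ⟶ Spec (.of K)) [GeometricallyIntegral f] [LocallyOfFiniteType f],
        ∃ s : Spec (.of K) ⟶ X, s ≫ f = 𝟙 _ := by
  let P : Set (Polynomial k) := {p | Irreducible p ∧ p.degree ≠ 1}
  have h0 : Good P (RingHom.id k) := by
    rintro p ⟨hp, hd⟩ x hx
    apply hd
    exact Polynomial.degree_eq_one_of_irreducible_of_root hp hx
  obtain ⟨K, _, f, hf, hec⟩ := exists_closed (P := P) (RingHom.id k) h0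
  rw [RingHom.comp_id] at hf hec
  refine ⟨K, inferInstance, f.toAlgebra, ?_, ?_⟩
  · let _ : Algebra k K := f.toAlgebra
    intro x hx
    have hint : IsIntegral k x := hx.isIntegral
    by_cases hd : (minpoly k x).degree = 1
    · exact minpoly.mem_range_of_degree_eq_one k x hd
    · exact absurd (minpoly.aeval k x) (hf _ ⟨minpoly.irreducible hint, hd⟩ x)
  · intro X g _ _
    exact exists_section P K f hf hec X g

end Pool.Agent.Q284.PAC
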