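import Mathlib

/-!
# Fields in which given polynomials have no roots: one step towards an existentially closed field

Let `P` be a set of polynomials over a field `k`. An extension of `k` is good if no polynomial of `P` has a root in it. Every good
field `K` has a good extension `L` in which every finite system of polynomial equations over `K` has a solution which has one in some
good extension of `L`.
-/

set_option autoImplicit false

namespace Pool.Agent.Q284.PAC

/-- no polynomial of `P` has a root -/
def Good {k L : Type} [Field k] [Field L] (P : Set (Polynomial k)) (f : k →+* L) : Prop :=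
  ∀ p ∈ P, ∀ x : L, p.eval₂ f x ≠ 0

/-- a finite system of polynomial equations -/
abbrev Sys (K : Type) [Field K] : Type := Σ n : ℕ, Finset (MvPolynomial (Fin n) K)

/-- the system has a solution in the extension `L` -/
def Sol {K L : Type} [Field K] [Field L] (f : K →+* L) (s : Sys K) : Prop :=
  ∃ x : Fin s.1 → L, ∀ p ∈ s.2, p.eval₂ f x = 0

theorem Sol.comp {K L M : Type} [Field K] [Field L] [Field M] {f : K →+* L} {s : Sys K} (h : Sol f s) (g : L →+* M) :
    Sol (g.comp f) s := by
  obtain ⟨x, hx⟩ := h
  refine ⟨g ∘ x, fun p hp => ?_⟩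
  rw [← MvPolynomial.eval₂_comp_left, hx p hp, map_zero]

variable {k K : Type} [Field k] [Field K] (P : Set (Polynomial k)) (c : k →+* K)

/-- all the systems of `T` have a solution in one good extension -/
def Poss (T : Set (Sys K)) : Prop :=
  ∃ (L : Type) (_ : Field L) (f : K →+* L), Good P (f.comp c) ∧ ∀ s ∈ T, Sol f s

theorem poss_of_finite (T : Set (Sys K))
    (h : ∀ F : Finset (Sys K), ↑F ⊆ T → Poss P c (F : Set (Sys K))) : Poss P c T := by
  classical
  choose L fld f hg hs using h
  let I : Type := {F : Finset (Sys K) // (F : Set (Sys K)) ⊆ T}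
  let : ∀ i : I, Field (L i.1 i.2) := fun i => fld i.1 i.2
  let R : Type := ∀ i : I, L i.1 i.2
  let e : Sys K → R := fun s i => if s ∈ i.1 then 0 else 1
  let J : Ideal R := Ideal.span (e '' T)
  have hJ : J ≠ ⊤ := by
    intro h1
    have h2 : (1 : R) ∈ J := by rw [h1]; trivial
    obtain ⟨F', hF', h3⟩ := Submodule.mem_span_finite_of_mem_span h2
    obtain ⟨F, hF, rfl⟩ := Finset.subset_set_image_iff.1 hF'
    let i : I := ⟨F, hF⟩
    have h4 : Submodule.span R ((F.image e : Finset R) : Set R) ≤ RingHom.ker (Pi.evalRingHom (fun i : I => L i.1 i.2) i) := by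
      refine Submodule.span_le.2 ?_
      intro r hr
      simp only [Finset.coe_image, Set.mem_image, Finset.mem_coe] at hr
      obtain ⟨s, hs1, rfl⟩ := hr
      change e s i = 0
      simp only [e]
      rw [if_pos]
      exact hs1
    have h5 := h4 h3
    rw [RingHom.mem_ker, map_one] at h5
    exact one_ne_zero h5
  obtain ⟨M, hM, hle⟩ := Ideal.exists_le_maximal J hJ
  let : Field (R ⧸ M) := Ideal.Quotient.field M
  let φ : K →+* R := RingHom.pi (fun i : I => f i.1 i.2)
  let g : K →+* R ⧸ M := (Ideal.Quotient.mk M).comp φ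
  refine ⟨R ⧸ M, inferInstance, g, ?_, ?_⟩
  · intro p hp x hx
    obtain ⟨r, rfl⟩ := Ideal.Quotient.mk_surjective x
    have h0 : Ideal.Quotient.mk M (p.eval₂ (φ.comp c) r) = 0 := by
      rw [Polynomial.hom_eval₂]
      exact hx
    have h1 : p.eval₂ (φ.comp c) r ∈ M := Ideal.Quotient.eq_zero_iff_mem.1 h0
    have h2 : IsUnit (p.eval₂ (φ.comp c) r) := by
      rw [Pi.isUnit_iff]
      intro i
      refine IsUnit.mk0 _ (fun h3 => hg i.1 i.2 p hp (r i) ?_)
      have h4 : Pi.evalRingHom (fun i : I => L i.1 i.2) i (p.eval₂ (φ.comp c) r) = 0 := h3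
      rw [Polynomial.hom_eval₂] at h4
      exact h4
    exact hM.ne_top (Ideal.eq_top_of_isUnit_mem _ h1 h2)
  · intro s hs1
    let X : Fin s.1 → R := fun j i => if h : s ∈ i.1 then (hs i.1 i.2 s h).choose j else 0
    refine ⟨Ideal.Quotient.mk M ∘ X, fun p hp => ?_⟩
    rw [← MvPolynomial.eval₂_comp_left, Ideal.Quotient.eq_zero_iff_mem]
    apply hle
    have h1 : p.eval₂ φ X = p.eval₂ φ X * e s := by
      funext i
      rw [Pi.mul_apply]
      by_cases h : s ∈ i.1
      · have h2 : Pi.evalRingHom (fun i : I => L i.1 i.2) i (p.eval₂ φ X) = 0 := by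
          rw [MvPolynomial.eval₂_comp_left]
          have h3 := (hs i.1 i.2 s h).choose_spec p hp
          have h4 : (Pi.evalRingHom (fun i : I => L i.1 i.2) i).comp φ = f i.1 i.2 := RingHom.ext fun _ => rfl
          have h5 : (Pi.evalRingHom (fun i : I => L i.1 i.2) i) ∘ X = (hs i.1 i.2 s h).choose := by
            funext j
            change X j i = _
            simp only [X]
            rw [dif_pos h]
          rw [h4, h5]
          exact h3
        change p.eval₂ φ X i = 0 at h2
        rw [h2, zero_mul]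
      · simp only [e]
        rw [if_neg h, mul_one]
    rw [h1]
    exact Ideal.mul_mem_left _ _ (Ideal.subset_span ⟨s, hs1, rfl⟩)

variable {P c} in
theorem Poss.mono {T T' : Set (Sys K)} (h : Poss P c T) (hT : T' ⊆ T) : Poss P c T' := by
  obtain ⟨L, _, f, hg, hs⟩ := h
  exact ⟨L, _, f, hg, fun s hs' => hs s (hT hs')⟩

/-- one step -/
theorem step (h : Good P c) :
    ∃ (L : Type) (_ : Field L) (f : K →+* L), Good P (f.comp c) ∧
      ∀ (M : Type) (_ : Field M) (g : L →+* M), Good P (g.comp (f.comp c)) → ∀ s : Sys K, Sol (g.comp f) s → Sol f s := by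
  have hF : Order.IsOfFiniteCharacter {T : Set (Sys K) | Poss P c T} := by
    intro T
    refine ⟨fun hT T' hT' _ => Poss.mono hT hT', fun hT => poss_of_finite P c T fun F hFT => hT _ hFT F.finite_toSet⟩
  have h0 : (∅ : Set (Sys K)) ∈ {T : Set (Sys K) | Poss P c T} :=
    ⟨K, inferInstance, RingHom.id K, h, fun s hs => absurd hs (Set.notMem_empty s)⟩
  obtain ⟨T, -, hT⟩ := hF.exists_maximal h0
  obtain ⟨L, fL, f, hg, hs⟩ := hT.prop
  refine ⟨L, fL, f, hg, fun M _ g hM s hsol => ?_⟩
  apply hs
  have h1 : Poss P c (insert s T) := by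
    refine ⟨M, inferInstance, g.comp f, hM, ?_⟩
    rintro t (rfl | ht)
    · exact hsol
    · exact (hs t ht).comp g
  exact hT.le_of_ge h1 (Set.subset_insert s T) (Set.mem_insert s T)

end Pool.Agent.Q284.PAC
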