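import Pool.Agent.Q284.PAC.Step

/-!
# Existentially closed good extensions

Every good extension of `k` has a good extension which is existentially closed in all its good extensions.
-/

set_option autoImplicit false

namespace Pool.Agent.Q284.PAC

/-- the union of a chain of fields -/
theorem chain_limit (G : ℕ → Type) [∀ n, Field (G n)] (ι : ∀ n, G n →+* G (n + 1)) :
    ∃ (K : Type) (_ : Field K) (u : ∀ n, G n →+* K), (∀ n, (u (n + 1)).comp (ι n) = u n) ∧ ∀ x : K, ∃ n y, u n y = x := by
  let F : ∀ i j, i ≤ j → G i →+* G j := fun i j h =>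
    Nat.leRec (motive := fun j _ => G i →+* G j) (RingHom.id _) (fun {k} _ f => (ι k).comp f) h
  have hself : ∀ i, F i i (le_refl i) = RingHom.id _ := fun i => Nat.leRec_self _ _
  have hsucc : ∀ i j (h : i ≤ j), F i (j + 1) (Nat.le_succ_of_le h) = (ι j).comp (F i j h) := fun i j h =>
    Nat.leRec_succ _ _ h
  have htrans : ∀ i j (hij : i ≤ j) k (hjk : j ≤ k), (F j k hjk).comp (F i j hij) = F i k (hij.trans hjk) := by
    intro i j hij k hjk
    induction k, hjk using Nat.le_induction with
    | base => rw [hself]; rfl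
    | succ k hk ih =>
      rw [hsucc j k hk, hsucc i k (hij.trans hk), ← ih]
      rfl
  have hD : DirectedSystem G (fun i j h => F i j h) :=
    { map_self := fun i x => by rw [hself]; rfl
      map_map := fun k j i hij hjk x => by rw [← htrans _ _ hij _ hjk]; rfl }
  let fK : Field (Ring.DirectLimit G (fun i j h => F i j h)) := Field.DirectLimit.field G F
  refine ⟨Ring.DirectLimit G (fun i j h => F i j h), fK, fun n => Ring.DirectLimit.of G (fun i j h => F i j h) n, ?_, ?_⟩
  · intro n
    ext x
    have h1 : F n (n + 1) (Nat.le_succ n) x = ι n x := by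
      have := hsucc n n (le_refl n)
      rw [hself] at this
      exact congrArg (fun g : G n →+* G (n + 1) => g x) this
    have h2 := Ring.DirectLimit.of_f (G := G) (f := fun i j h => F i j h) (Nat.le_succ n) x
    rw [← h2, h1]
    rfl
  · intro x
    obtain ⟨n, y, hy⟩ := Ring.DirectLimit.exists_of x
    exact ⟨n, y, hy⟩

variable {k : Type} [Field k] (P : Set (Polynomial k))

/-- a good extension of `k` -/
structure Obj where
  K : Type
  [fld : Field K]
  c : k →+* K
  good : Good P c

attribute [instance] Obj.fld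

variable {P}

theorem exists_next (o : Obj P) : ∃ (p : Obj P) (f : o.K →+* p.K), f.comp o.c = p.c ∧
    ∀ (M : Type) (_ : Field M) (g : p.K →+* M), Good P (g.comp p.c) → ∀ s : Sys o.K, Sol (g.comp f) s → Sol f s := by
  obtain ⟨L, _, f, hL, h⟩ := step P o.c o.good
  exact ⟨{K := L, c := f.comp o.c, good := hL}, f, rfl, h⟩

noncomputable def next (o : Obj P) : Obj P := (exists_next o).choose

noncomputable def emb (o : Obj P) : o.K →+* (next o).K := (exists_next o).choose_spec.choose

theorem emb_c (o : Obj P) : (emb o).comp o.c = (next o).c := (exists_next o).choose_spec.choose_spec.1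

theorem emb_ec (o : Obj P) : ∀ (M : Type) (_ : Field M) (g : (next o).K →+* M), Good P (g.comp (next o).c) →
    ∀ s : Sys o.K, Sol (g.comp (emb o)) s → Sol (emb o) s := (exists_next o).choose_spec.choose_spec.2

noncomputable def seq (o : Obj P) : ℕ → Obj P
  | 0 => o
  | n + 1 => next (seq o n)

theorem exists_seq {K₀ : Type} [Field K₀] (c₀ : k →+* K₀) (h₀ : Good P c₀) :
    ∃ (S : ℕ → Obj P) (j : ∀ n, (S n).K →+* (S (n + 1)).K) (f : K₀ →+* (S 0).K), f.comp c₀ = (S 0).c ∧
      (∀ n, (j n).comp (S n).c = (S (n + 1)).c) ∧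
      ∀ (n : ℕ) (M : Type) (_ : Field M) (g : (S (n + 1)).K →+* M), Good P (g.comp (S (n + 1)).c) →
        ∀ s : Sys (S n).K, Sol (g.comp (j n)) s → Sol (j n) s :=
  ⟨seq {K := K₀, c := c₀, good := h₀}, fun n => emb (seq _ n), RingHom.id K₀, rfl, fun _ => emb_c _, fun _ => emb_ec _⟩

/-- an existentially closed good extension -/
theorem exists_closed {K₀ : Type} [Field K₀] (c₀ : k →+* K₀) (h₀ : Good P c₀) :
    ∃ (K : Type) (_ : Field K) (f : K₀ →+* K), Good P (f.comp c₀) ∧
      ∀ (M : Type) (_ : Field M) (g : K →+* M), Good P (g.comp (f.comp c₀)) →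
        ∀ s : Sys K, Sol g s → Sol (RingHom.id K) s := by
  classical
  obtain ⟨S, j, f, hf, hj, hec⟩ := exists_seq c₀ h₀
  obtain ⟨K, _, u, hu, hex⟩ := chain_limit (fun n => (S n).K) j
  have huc : ∀ n, (u n).comp (S n).c = (u 0).comp (f.comp c₀) := by
    intro n
    induction n with
    | zero => rw [hf]
    | succ n ih => rw [← ih, ← hu n, RingHom.comp_assoc, hj]
  have hinj : ∀ n, Function.Injective (u n) := fun n => (u n).injective
  have hmono : ∀ n k, Set.range (u n) ⊆ Set.range (u (n + k)) := by
    intro n k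
    induction k with
    | zero => exact subset_rfl
    | succ k ih =>
      refine ih.trans ?_
      rintro _ ⟨y, rfl⟩
      exact ⟨j _ y, by rw [← hu (n + k)]; rfl⟩
  refine ⟨K, inferInstance, (u 0).comp f, ?_, ?_⟩
  · intro p hp x hx
    obtain ⟨n, y, rfl⟩ := hex x
    rw [RingHom.comp_assoc, ← huc n, ← Polynomial.hom_eval₂, map_eq_zero] at hx
    exact (S n).good p hp y hx
  · intro M _ g hM s hs
    rw [RingHom.comp_assoc] at hM
    -- all the coefficients come from one step
    have hfin : ∀ C : Finset K, ∃ N, (C : Set K) ⊆ Set.range (u N) := by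
      intro C
      induction C using Finset.induction_on with
      | empty => exact ⟨0, by simp⟩
      | insert c C _ ih =>
        obtain ⟨N, hN⟩ := ih
        obtain ⟨m, y, hy⟩ := hex c
        refine ⟨N + m, ?_⟩
        intro z hz
        rw [Finset.coe_insert, Set.mem_insert_iff] at hz
        rcases hz with rfl | hz
        · have := hmono m N ⟨y, hy⟩
          rwa [add_comm] at this
        · exact hmono N m (hN hz)
    obtain ⟨N, hN⟩ := hfin (s.2.biUnion fun p => p.coeffs)
    have hp : ∀ p ∈ s.2, ∃ q : MvPolynomial (Fin s.1) (S N).K, MvPolynomial.map (u N) q = p := by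
      intro p hp
      have h1 : p ∈ Set.range (MvPolynomial.map (u N)) := by
        rw [MvPolynomial.mem_range_map_iff_coeffs_subset]
        refine subset_trans ?_ hN
        intro z hz
        rw [Finset.mem_coe, Finset.mem_biUnion]
        exact ⟨p, hp, hz⟩
      exact h1
    choose q hq using hp
    let s' : Sys (S N).K := ⟨s.1, s.2.attach.image fun p => q p.1 p.2⟩
    have h1 : Sol (((g.comp (u (N + 1)))).comp (j N)) s' := by
      obtain ⟨x, hx⟩ := hs
      refine ⟨x, ?_⟩
      intro r hr
      rw [Finset.mem_image] at hr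
      obtain ⟨p, -, rfl⟩ := hr
      rw [RingHom.comp_assoc, hu N, ← MvPolynomial.eval₂_map, hq]
      exact hx p.1 p.2
    have h2 := hec N M inferInstance (g.comp (u (N + 1))) (by
      rw [RingHom.comp_assoc, huc]
      exact hM) s' h1
    obtain ⟨x, hx⟩ := h2
    refine ⟨u (N + 1) ∘ x, fun p hp => ?_⟩
    have h3 := hx (q p hp) (Finset.mem_image.2 ⟨⟨p, hp⟩, Finset.mem_attach _ _, rfl⟩)
    have h4 : p.eval₂ (RingHom.id K) (u (N + 1) ∘ x) = (q p hp).eval₂ ((u (N + 1)).comp (j N)) (u (N + 1) ∘ x) := by
      conv_lhs => rw [← hq p hp, MvPolynomial.eval₂_map]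
      rw [RingHom.id_comp, hu N]
    rw [h4, ← MvPolynomial.eval₂_comp_left, h3, map_zero]

end Pool.Agent.Q284.PAC
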